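import Pool.Agent.H87.AM.Upper
import Pool.Agent.H78.AM.Lower

/-!
# The least degree of an approximate majority is `n ^ (1/2 + o(1))`

Upper bound: `Pool/Agent/H87/AM`; lower bound: `Pool/Agent/H78/AM`.
-/

open Finset

namespace Pool.H49.Old.DegreeExponentOneHalf

/-- The point of `{-1, 1}` encoded by a bit: `true` is `1` and `false` is `-1`. -/
def sgn (b : Bool) : ℝ := if b then 1 else -1

/-- The Fourier coefficient of `f` at `S`. -/
noncomputable def coef {n : ℕ} (f : (Fin n → Bool) → ℝ) (S : Finset (Fin n)) : ℝ :=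
  (∑ x : Fin n → Bool, f x * ∏ i ∈ S, sgn (x i)) / 2 ^ n

open Classical in
/-- The degree of `f`: the largest `|S|` with a nonzero Fourier coefficient. -/
noncomputable def degree {n : ℕ} (f : (Fin n → Bool) → ℝ) : ℕ :=
  (Finset.univ.filter (fun S : Finset (Fin n) => coef f S ≠ 0)).sup Finset.card

/-- The admissible functions. -/
structure Admissible {n : ℕ} (f : (Fin n → Bool) → ℝ) : Prop where
  gap : ∀ x, f x ∈ Set.Icc (-1 : ℝ) (-(2 / 3)) ∪ Set.Icc (2 / 3 : ℝ) 1
  high : ∀ x, (n : ℝ) / 2 ≤ ∑ i, sgn (x i) → f x ∈ Set.Icc (2 / 3 : ℝ) 1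
  low : ∀ x, ∑ i, sgn (x i) ≤ -((n : ℝ) / 2) → f x ∈ Set.Icc (-1 : ℝ) (-(2 / 3))

/-- The least degree of an admissible function on `{-1, 1} ^ n`. -/
noncomputable def D (n : ℕ) : ℕ :=
  sInf {d : ℕ | ∃ f : (Fin n → Bool) → ℝ, Admissible f ∧ degree f = d}

variable {n : ℕ}

lemma sum_chi (U : Finset (Fin n)) :
    ∑ x : Fin n → Bool, ∏ i ∈ U, sgn (x i) = if U = ∅ then 2 ^ n else 0 := by
  have h1 : ∀ x : Fin n → Bool, ∏ i ∈ U, sgn (x i) = ∏ i, (if i ∈ U then sgn (x i) else 1) := by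
    intro x; rw [Finset.prod_ite_mem, Finset.univ_inter]
  simp_rw [h1]
  have h := Finset.prod_univ_sum (fun _ : Fin n => (Finset.univ : Finset Bool))
    (fun i b => if i ∈ U then sgn b else (1:ℝ))
  rw [Fintype.piFinset_univ] at h
  rw [← h]
  have h2 : ∀ i : Fin n, ∑ b : Bool, (if i ∈ U then sgn b else (1:ℝ)) =
      if i ∈ U then 0 else 2 := by
    intro i
    rw [Fintype.sum_bool]
    split_ifs <;> norm_num [sgn]
  simp_rw [h2]
  split_ifs with hU
  · subst hU; simp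
  · obtain ⟨i, hi⟩ := Finset.nonempty_iff_ne_empty.2 hU
    exact Finset.prod_eq_zero (Finset.mem_univ i) (if_pos hi)

lemma sgn_eq (b : Bool) : sgn b = H87AM.sg b := rfl

lemma coef_add (f g : (Fin n → Bool) → ℝ) (S : Finset (Fin n)) :
    coef (f + g) S = coef f S + coef g S := by
  unfold coef
  rw [← add_div, ← Finset.sum_add_distrib]
  congr 1
  exact Finset.sum_congr rfl fun x _ => by rw [Pi.add_apply]; ring

lemma coef_smul (c : ℝ) (f : (Fin n → Bool) → ℝ) (S : Finset (Fin n)) :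
    coef (c • f) S = c * coef f S := by
  unfold coef
  rw [← mul_div_assoc, Finset.mul_sum]
  congr 1
  exact Finset.sum_congr rfl fun x _ => by simp only [Pi.smul_apply, smul_eq_mul]; ring

lemma coef_chi (S T : Finset (Fin n)) : coef (H87AM.chi T) S = if T = S then 1 else 0 := by
  unfold coef
  have h : ∀ x : Fin n → Bool, H87AM.chi T x * ∏ i ∈ S, sgn (x i) =
      ∏ i ∈ symmDiff T S, sgn (x i) := by
    intro x
    have := congrFun (H87AM.chi_mul T S) x
    exact this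
  simp_rw [h]
  rw [sum_chi]
  by_cases hTS : T = S
  · subst hTS; simp
  · have : symmDiff T S ≠ ∅ := by
      intro h; exact hTS (symmDiff_eq_bot.1 h)
    simp [this, hTS]

/-- Fourier inversion. -/
lemma inversion (f : (Fin n → Bool) → ℝ) (x : Fin n → Bool) :
    f x = ∑ S, coef f S * ∏ i ∈ S, sgn (x i) := by
  unfold coef
  have h1 : ∀ S : Finset (Fin n), (∑ y : Fin n → Bool, f y * ∏ i ∈ S, sgn (y i)) / 2 ^ n *
      ∏ i ∈ S, sgn (x i) = ∑ y : Fin n → Bool, f y / 2 ^ n * ∏ i ∈ S, (sgn (y i) * sgn (x i)) := by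
    intro S
    rw [Finset.sum_div, Finset.sum_mul]
    apply Finset.sum_congr rfl
    intro y _
    rw [Finset.prod_mul_distrib]; ring
  simp_rw [h1]
  rw [Finset.sum_comm]
  have h2 : ∀ y : Fin n → Bool, ∑ S : Finset (Fin n), f y / 2 ^ n * ∏ i ∈ S, (sgn (y i) * sgn (x i)) =
      if y = x then f x else 0 := by
    intro y
    rw [← Finset.mul_sum, ← Finset.powerset_univ, ← Finset.prod_one_add]
    by_cases hy : y = x
    · subst hy
      have : ∀ i, 1 + sgn (y i) * sgn (y i) = 2 := by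
        intro i; cases y i <;> norm_num [sgn]
      simp_rw [this]
      simp
    · rw [if_neg hy]
      obtain ⟨i, hi⟩ : ∃ i, y i ≠ x i := by
        by_contra hcon; push Not at hcon; exact hy (funext hcon)
      rw [Finset.prod_eq_zero (Finset.mem_univ i), mul_zero]
      cases h3 : y i <;> cases h4 : x i <;> simp_all [sgn]
  simp_rw [h2]
  simp

lemma degree_le_of_mem {d : ℕ} {f : (Fin n → Bool) → ℝ} (hf : f ∈ H87AM.Deg (Fin n) d) :
    degree f ≤ d := by
  classical
  unfold degree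
  apply Finset.sup_le
  intro S hS
  rw [Finset.mem_filter] at hS
  by_contra hlt
  push Not at hlt
  apply hS.2
  unfold H87AM.Deg at hf
  clear hS
  induction hf using Submodule.span_induction with
  | mem f hf =>
    obtain ⟨T, hT, rfl⟩ := hf
    simp only [Set.mem_ofPred_eq] at hT
    rw [coef_chi, if_neg]
    rintro rfl; omega
  | zero => simp [coef]
  | add f g _ _ hf hg => rw [coef_add, hf, hg, add_zero]
  | smul c f _ hf => rw [coef_smul, hf, mul_zero]

lemma degLE_degree (f : (Fin n → Bool) → ℝ) : Pool.Agent.H78.AM.DegLE (degree f) f := by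
  classical
  refine ⟨coef f, fun T hT => ?_, fun x => inversion f x⟩
  by_contra hne
  have : T.card ≤ degree f := by
    unfold degree
    exact Finset.le_sup (f := Finset.card) (Finset.mem_filter.2 ⟨Finset.mem_univ T, hne⟩)
  omega

lemma sum_sgn (x : Fin n → Bool) : ∑ i, sgn (x i) = n - 2 * (H87AM.cnt false x : ℝ) := by
  have h1 : ∀ i, sgn (x i) = 1 - 2 * (if x i = false then 1 else 0) := by
    intro i; cases x i <;> norm_num [sgn]
  simp_rw [h1]
  rw [Finset.sum_sub_distrib, ← Finset.mul_sum]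
  congr 1
  · simp
  · unfold H87AM.cnt
    rw [Finset.card_filter]; push_cast; rfl

lemma admissible_toH78 {f : (Fin n → Bool) → ℝ} (h : Admissible f) :
    Pool.Agent.H78.AM.Admissible f where
  gap := fun x => by
    rcases h.gap x with h1 | h1
    · rw [abs_of_nonpos (by linarith [h1.2])]
      exact ⟨by linarith [h1.2], by linarith [h1.1]⟩
    · rw [abs_of_nonneg (by linarith [h1.1])]
      exact ⟨h1.1, h1.2⟩
  high := fun x hx => (h.high x hx).1
  low := fun x hx => (h.low x hx).2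

lemma exists_admissible (n : ℕ) {ε : ℝ} {C : ℝ}
    (h : ∃ (d : ℕ) (f : (Fin n → Bool) → ℝ), (d:ℝ) ≤ C * (n:ℝ) ^ ((1:ℝ)/2 + ε) ∧
      f ∈ H87AM.Deg (Fin n) d ∧
      (∀ x, f x ∈ Set.Icc (-1:ℝ) (-(7/8)) ∪ Set.Icc (7/8) 1) ∧
      (∀ x, 4 * H87AM.cnt false x ≤ n → 7/8 ≤ f x) ∧
      (∀ x, 4 * H87AM.cnt true x ≤ n → f x ≤ -(7/8))) :
    ∃ f : (Fin n → Bool) → ℝ, Admissible f ∧ (degree f : ℝ) ≤ C * (n:ℝ) ^ ((1:ℝ)/2 + ε) := by
  obtain ⟨d, f, hd, hdeg, h1, h2, h3⟩ := h
  have hgap : ∀ x, f x ∈ Set.Icc (-1 : ℝ) (-(2 / 3)) ∪ Set.Icc (2 / 3 : ℝ) 1 := by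
    intro x
    rcases h1 x with h | h
    · left; exact ⟨h.1, by linarith [h.2]⟩
    · right; exact ⟨by linarith [h.1], h.2⟩
  refine ⟨f, ⟨hgap, fun x hx => ?_, fun x hx => ?_⟩, ?_⟩
  · rw [sum_sgn] at hx
    have h4 : 4 * H87AM.cnt false x ≤ n := by
      have : 4 * (H87AM.cnt false x : ℝ) ≤ n := by linarith
      exact_mod_cast this
    have h5 := h2 x h4
    rcases hgap x with h | h
    · exfalso; linarith [h.2]
    · exact h
  · have h6 := H87AM.cnt_add x
    rw [Fintype.card_fin] at h6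
    have h7 : (H87AM.cnt true x : ℝ) + H87AM.cnt false x = n := by exact_mod_cast h6
    rw [sum_sgn] at hx
    have h4 : 4 * H87AM.cnt true x ≤ n := by
      have : 4 * (H87AM.cnt true x : ℝ) ≤ n := by linarith
      exact_mod_cast this
    have h5 := h3 x h4
    rcases hgap x with h | h
    · exact h
    · exfalso; linarith [h.1]
  · exact le_trans (by exact_mod_cast degree_le_of_mem hdeg) hd

/-- `D n = n ^ (1/2 + o(1))`: `√n / 5 ≤ D n` for every `n ≥ 1`, and for every `ε > 0` there is `C`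
with `D n ≤ C n ^ (1/2 + ε)` for every `n ≥ 1`. -/
theorem result :
    (∀ n : ℕ, 1 ≤ n → Real.sqrt n / 5 ≤ (D n : ℝ)) ∧
    (∀ ε : ℝ, 0 < ε → ∃ C : ℝ, ∀ n : ℕ, 1 ≤ n → (D n : ℝ) ≤ C * (n : ℝ) ^ ((1 : ℝ) / 2 + ε)) := by
  constructor
  · intro n hn
    obtain ⟨C, _, hC⟩ := H87AM.upper_bound (ε := 1) one_pos
    obtain ⟨f, hf, _⟩ := exists_admissible n (hC n hn)
    have hne : {d : ℕ | ∃ f : (Fin n → Bool) → ℝ, Admissible f ∧ degree f = d}.Nonempty :=
      ⟨degree f, f, hf, rfl⟩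
    obtain ⟨g, hg, hgd⟩ := Nat.sInf_mem hne
    have h1 := Pool.Agent.H78.AM.lower (by omega) (admissible_toH78 hg) (degLE_degree g)
    have hD : degree g = D n := hgd
    rw [hD] at h1
    have h2 : (n:ℝ) ≤ 23 * (D n : ℝ) ^ 2 := by exact_mod_cast h1
    rw [div_le_iff₀ (by norm_num)]
    apply Real.sqrt_le_iff.2
    constructor
    · positivity
    · nlinarith [sq_nonneg (D n : ℝ)]
  · intro ε hε
    obtain ⟨C, _, hC⟩ := H87AM.upper_bound hε
    refine ⟨C, fun n hn => ?_⟩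
    obtain ⟨f, hf, hd⟩ := exists_admissible n (hC n hn)
    have h1 : D n ≤ degree f := Nat.sInf_le ⟨f, hf, rfl⟩
    exact le_trans (by exact_mod_cast h1) hd

end Pool.H49.Old.DegreeExponentOneHalf
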